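import Mathlib
import Pool.Agent.T2H82.GeoLine.Main

/-!
Exact values of `f n k` for odd `k = d (d + 1) + 2 r + 1` (`r ≤ d`) when `2 (d + 1)` divides `n`, and
for `k = d² + d + 1` when `n ≥ 2 d²`.
-/

namespace Pool.Agent.Results.MP_b5bf4a_co.ExactValues

open Pool.Agent.T2H82.GeoLine

theorem result (n k d r : ℕ) (hr : r ≤ d) (hk : k = d * (d + 1) + 2 * r + 1) (hn : 2 * d + 3 ≤ n)
    (h : 2 * (d + 1) ∣ n ∨ (r = 0 ∧ 2 * d ^ 2 ≤ n)) :
    f n k = d * n + r * n / (d + 1) + 1 ∧ f n k ≤ n.choose 2 := by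
  have h1 : f n k = d * n + r * n / (d + 1) + 1 := by
    subst hk
    rcases h with h | ⟨rfl, h⟩
    · exact exact_div n d r hr hn h
    · simpa using exact_oblong n d hn h
  refine ⟨h1, ?_⟩
  rw [h1]
  exact exact_le_choose n d r hr hn

end Pool.Agent.Results.MP_b5bf4a_co.ExactValues
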