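import Mathlib
import Pool.Agent.T2H82.GeoLine.Main

/-!
Every `k ≥ 1` is in exactly one way `k = d (d + 1) + 2 r + ε + 1` with `r ≤ d` and `ε ∈ {0, 1}`.
We prove, for all `n ≥ 2 d + 3`,
`d n + ⌊r n / (d + 1)⌋ + ε + 1 ≤ f n k ≤ (d + r / (d + 1)) (n - 1) + 2 (k - 1) + 1`.
-/

namespace Pool.Agent.Results.MP_b5bf4a_co.TwoSided

open Pool.Agent.T2H82.GeoLine

theorem result (n k d r ε : ℕ) (hr : r ≤ d) (hε : ε ≤ 1) (hk : k = d * (d + 1) + 2 * r + ε + 1)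
    (hn : 2 * d + 3 ≤ n) :
    d * n + r * n / (d + 1) + ε + 1 ≤ f n k ∧
      (f n k : ℝ) ≤ (d + (r : ℝ) / (d + 1)) * (n - 1) + 2 * (k - 1) + 1 := by
  subst hk
  refine ⟨lower_general n d r ε hr hε hn, ?_⟩
  have h := upper_general_f n d r ε hε (by omega)
  obtain ⟨m, rfl⟩ : ∃ m, n = m + 1 := ⟨n - 1, by omega⟩
  rw [Nat.add_sub_cancel] at h
  have h' : ((d : ℝ) + 1) * (f (m + 1) (d * (d + 1) + 2 * r + ε + 1) : ℝ) ≤
      ((d : ℝ) * (d + 1) + r) * m + (d + 1) * (2 * (d * (d + 1) + 2 * r + ε) + 1) := by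
    exact_mod_cast h
  have hd : (0 : ℝ) < (d : ℝ) + 1 := by positivity
  rw [← mul_le_mul_iff_right₀ hd]
  refine le_trans h' (le_of_eq ?_)
  push_cast
  field_simp
  ring

end Pool.Agent.Results.MP_b5bf4a_co.TwoSided
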